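import Pool.Agent.T2h14.FD.Stm

/-!
Task NEW of the project FD: the Newton iteration.
-/

set_option autoImplicit false

open MvPowerSeries IsLocalRing

namespace Pool.Agent.T2h14.FD

namespace TNEW

theorem eq_of_dvd {R : Type} [CommRing R] (x : R) [IsAdicComplete (Ideal.span {x}) R] (a b : R)
    (h : ∀ ν : ℕ, x ^ ν ∣ a - b) : a = b := by
  have h1 : a - b = 0 := by
    refine IsHausdorff.haus (I := Ideal.span {x}) inferInstance (a - b) fun ν => ?_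
    rw [SModEq.zero, smul_eq_mul, Ideal.mul_top, Ideal.span_singleton_pow,
      Ideal.mem_span_singleton]
    exact h ν
  exact sub_eq_zero.1 h1

theorem two_pow (ν : ℕ) : ν + 2 ≤ 2 ^ (ν + 1) := by
  induction ν with
  | zero => norm_num
  | succ ν ih =>
    rw [pow_succ]
    omega

end TNEW

theorem t_NEW (h1 : STEP) (h2 : LIM) (h3 : BIJ) (h4 : COMP) : NEW := by
  intro p _ k _ _ n s D f F x hx hδ hF
  obtain ⟨δ, hδd⟩ : ∃ δ, δ = (Matrix.of fun i l => D i (f l)).det := ⟨_, rfl⟩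
  have hstep : ∀ (ν : ℕ) (Θ : Rn n k →+* Rn n k),
      (∀ l, x ^ (2 ^ (ν + 1)) * δ ^ 2 ∣ f l - Θ (F l)) →
      ∃ Θ' : Rn n k →+* Rn n k, (∀ l, x ^ (2 ^ (ν + 1 + 1)) * δ ^ 2 ∣ f l - Θ' (F l)) ∧
        ∀ g, x ^ (2 ^ (ν + 1)) ∣ Θ' g - Θ g := by
    intro ν Θ hΘ
    rw [hδd] at hΘ
    obtain ⟨τ, ht1, ht2⟩ := h1 p k n s D f (fun l => Θ (F l)) x (2 ^ (ν + 1)) hx
      (by have := TNEW.two_pow ν; omega) hδ hΘ
    refine ⟨τ.comp Θ, fun l => ?_, fun g => ht1 (Θ g)⟩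
    rw [pow_succ 2 (ν + 1), mul_comm (2 ^ (ν + 1)) 2, hδd]
    exact ht2 l
  choose! nxt hn1 hn2 using hstep
  let seq : ℕ → (Rn n k →+* Rn n k) := fun ν => Nat.rec (RingHom.id _) (fun ν Θ => nxt ν Θ) ν
  have hs0 : seq 0 = RingHom.id _ := rfl
  have hs1 : ∀ ν, seq (ν + 1) = nxt ν (seq ν) := fun ν => rfl
  have hP : ∀ ν l, x ^ (2 ^ (ν + 1)) * δ ^ 2 ∣ f l - seq ν (F l) := by
    intro ν
    induction ν with
    | zero =>
      intro l
      rw [hs0, hδd]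
      simpa using hF l
    | succ ν ih =>
      rw [hs1]
      exact hn1 ν (seq ν) ih
  have hac : IsAdicComplete (Ideal.span {x}) (Rn n k) := h4 k n x hx
  obtain ⟨Θ, hΘ⟩ := h2 (Rn n k) x seq (fun ν g => by
    rw [hs1]
    exact (pow_dvd_pow x (TNEW.two_pow ν)).trans (hn2 ν (seq ν) (hP ν) g)) (fun g => rfl)
  have hdom : IsDomain (Rn n k) := NoZeroDivisors.to_isDomain _
  have hb : Function.Bijective Θ := h3 (Rn n k) x Θ (fun g => hΘ 0 g)
  refine ⟨RingEquiv.ofBijective Θ hb, fun l => ?_⟩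
  show Θ (F l) = f l
  refine TNEW.eq_of_dvd x _ _ fun ν => ?_
  have e1 : Θ (F l) - f l = (Θ (F l) - seq ν (F l)) - (f l - seq ν (F l)) := by ring
  rw [e1]
  refine dvd_sub ?_ ?_
  · exact (pow_dvd_pow x (by omega)).trans (hΘ ν (F l))
  · refine dvd_trans ?_ (hP ν l)
    refine Dvd.dvd.mul_right (pow_dvd_pow x ?_) _
    have := TNEW.two_pow ν
    omega

end Pool.Agent.T2h14.FD
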